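import Mathlib

/-!
# Project GE (helper38): every good endomorphism of a free associative algebra is an automorphism
(row MP_54c2ef_al, hard). Definitions and statements of the jobs.

`A = K⟨x₁ … xₙ⟩`, `φ` good, `fᵢ = φ(xᵢ)`. Plan.
1. The noncommutative Jacobian `W ↦ Σ_u X^u W_j (H_u)_{ji}(Y)` of `φ` is injective on matrices (`JST`): its
   determinant on the line `(tX, tY)` is a polynomial in `t`, constant mod `t^(m-1)` for all `m`.
2. So `φ` is injective on tuples of matrices (`INJ`), and surjective over algebraically closed fields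
   by Ax-Grothendieck (`AX`).
3. The Jacobian is invertible over `A ⊗ Aᵒᵖ` (`INV`), by Levitzki's theorem (`LEV`, `PEN`) over division
   rings which are contained in matrix rings over fields (`DIV`).
4. So the `xᵢ` are in a finite dimensional space `V ⊆ K + Σ fᵢ V` (`VSP`).
5. By 2 (and `LEV` again) `V ⊆ K⟨f₁ … fₙ⟩` (`END`).
-/

set_option autoImplicit false

namespace Q38.GE

open Matrix

/-- words -/
abbrev Wd (n : ℕ) : Type := List (Fin n)

/-- the free associative algebra `K⟨x₁ … xₙ⟩` -/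
abbrev A (K : Type) [Field K] (n : ℕ) : Type := FreeAlgebra K (Fin n)

/-- the variable `xᵢ` -/
noncomputable abbrev x (K : Type) [Field K] {n : ℕ} (i : Fin n) : A K n := FreeAlgebra.ι K i

/-- the monomial of a word -/
noncomputable def mon (K : Type) [Field K] {n : ℕ} (w : Wd n) : A K n := (w.map (x K)).prod

/-- `I ^ m`: the span of the monomials of degree at least `m` -/
def Im (K : Type) [Field K] (n m : ℕ) : Submodule K (A K n) :=
  Submodule.span K {a | ∃ w : Wd n, m ≤ w.length ∧ a = mon K w}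

/-- good endomorphisms -/
def Good {K : Type} [Field K] {n : ℕ} (φ : A K n →ₐ[K] A K n) : Prop :=
  ∀ m : ℕ, 1 ≤ m → ∃ (ψ : A K n →ₐ[K] A K n) (χ : A K n ≃ₐ[K] A K n),
    φ = ψ.comp (χ : A K n →ₐ[K] A K n) ∧ ∀ i, ψ (x K i) - x K i ∈ Im K n m

/-- constant term -/
noncomputable def ep {K : Type} [Field K] {n : ℕ} : A K n →ₐ[K] K := FreeAlgebra.algebraMapInv

/-- evaluation at a tuple of elements of a `K`-algebra -/
noncomputable def ev {K : Type} [Field K] {n : ℕ} {R : Type} [Ring R] [Algebra K R] (X : Fin n → R) :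
    A K n →ₐ[K] R := FreeAlgebra.lift K X

/-- `X^w` -/
def mo {n : ℕ} {R : Type} [Ring R] (X : Fin n → R) (w : Wd n) : R := (w.map X).prod

/-- upper right block of the evaluation at the block matrices `(X W; 0 Y)` -/
noncomputable def dl {K : Type} [Field K] {n : ℕ} {R : Type} [CommRing R] [Algebra K R] {r s : Type}
    [Fintype r] [DecidableEq r] [Fintype s] [DecidableEq s] (X : Fin n → Matrix r r R)
    (Y : Fin n → Matrix s s R) (W : Fin n → Matrix r s R) (a : A K n) : Matrix r s R :=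
  (ev (K := K) (fun i => Matrix.fromBlocks (X i) (W i) 0 (Y i)) a).toBlocks₁₂

/-- the Jacobian of `φ` is injective at all pairs of tuples of matrices over field extensions -/
def JStar {K : Type} [Field K] {n : ℕ} (φ : A K n →ₐ[K] A K n) : Prop :=
  ∀ (L : Type) [Field L] [Algebra K L] (r s : Type) [Fintype r] [DecidableEq r] [Fintype s]
    [DecidableEq s] (X : Fin n → Matrix r r L) (Y : Fin n → Matrix s s L) (W : Fin n → Matrix r s L),
    (∀ i, dl X Y W (φ (x K i)) = 0) → ∀ i, W i = 0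

/-- `φ` is surjective on tuples of matrices over algebraically closed field extensions -/
def Sur {K : Type} [Field K] {n : ℕ} (φ : A K n →ₐ[K] A K n) : Prop :=
  ∀ (L : Type) [Field L] [IsAlgClosed L] [Algebra K L] (r : ℕ) (T : Fin n → Matrix (Fin r) (Fin r) L),
    ∃ X : Fin n → Matrix (Fin r) (Fin r) L, ∀ i, ev X (φ (x K i)) = T i

/-- `tr i a` is the sum of the `a[i w] w`, that is `a = ε(a) + Σ xᵢ tr i a` -/
noncomputable def tr {K : Type} [Field K] {n : ℕ} (i : Fin n) : A K n →ₗ[K] A K n where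
  toFun a := (ev (K := K) (fun j => !![0, if j = i then (1 : A K n) else 0; 0, x K j]) a) 0 1
  map_add' := by intro a b; simp
  map_smul' := by intro a b; simp

/-- `trw u a` is the sum of the `a[u w] w` -/
noncomputable def trw {K : Type} [Field K] {n : ℕ} : Wd n → A K n → A K n
  | [], a => a
  | i :: u, a => trw u (tr i a)

/-- the matrix `(H_u)_{ji} = Σ_v fᵢ[u x_j v] v` -/
noncomputable def Hm {K : Type} [Field K] {n : ℕ} (φ : A K n →ₐ[K] A K n) (u : Wd n) :
    Matrix (Fin n) (Fin n) (A K n) := fun j i => tr j (trw u (φ (x K i)))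

/-- the words of length `< N` -/
def wds (n : ℕ) : ℕ → Finset (Wd n)
  | 0 => ∅
  | N + 1 => insert [] ((Finset.univ ×ˢ wds n N).image fun p => p.1 :: p.2)

/-- the pencil of a system `c` (acting on row vectors from the right) -/
def QM {R : Type} [Ring R] {n p : ℕ} (d : ℕ) (c : Wd n → Matrix (Fin p) (Fin p) R) (i : Fin n) :
    Matrix ({u // u ∈ wds n d} × Fin p) ({u // u ∈ wds n d} × Fin p) R := fun s t =>
  if t.1.1 = [] then c (i :: s.1.1) s.2 t.2 else if t.1.1 = i :: s.1.1 ∧ s.2 = t.2 then 1 else 0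

/-- JOB JST. Proof. For a commutative `K`-algebra `R` let `J_φ(X,Y)` be the `R`-linear endomorphism
`W ↦ (dl X Y W (φ xᵢ))ᵢ` of `Fin n → Matrix r s R` (free of finite rank). Since
`ev (X W; 0 Y) ∘ φ = ev (φ(X) J_φ(X,Y)W; 0 φ(Y))` (`φ(X)ᵢ = ev X (φ xᵢ)`), the chain rule is
`J_{ψ∘χ}(X,Y) = J_χ(ψ(X),ψ(Y)) ∘ J_ψ(X,Y)`; so `J_χ` is bijective, with determinant a unit of `R`, for an
automorphism `χ`. Let `L, X, Y` be given, `R = L[t]`, and look at `(tX, tY)`. For `m ≥ 2`, `φ = ψ ∘ χ` as in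
`Good`: `det J_χ(..)` is a unit of `L[t]`, so a nonzero constant, and `J_ψ(tX,tY) = id + t^(m-1) E`, as
`dl (tX) (tY) W (mon w)` is divisible by `t^(|w|-1)`, so `det J_ψ(tX,tY) ≡ 1 mod t^(m-1)`. So
`D(t) = det J_φ(tX,tY) ∈ L[t]` is congruent to its value `c = D(0) ≠ 0` mod `t^(m-1)` for all `m ≥ 2`, hence
`D = c`. Apply `t ↦ 1` : `det J_φ(X,Y) = c ≠ 0`, so `J_φ(X,Y)` is injective. -/
def S_JST : Prop := ∀ (K : Type) [Field K] (n : ℕ) (φ : A K n →ₐ[K] A K n), Good φ → JStar φ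

/-- JOB INJ. Proof. `dl X Y (X - Y) a = ev X a - ev Y a` (`r = s`; induction on `a` with
`FreeAlgebra.induction`, or conjugate `diag(X, Y)` by `(1 -1; 0 1)`); use `a = φ xᵢ`, `W = X - Y`. -/
def S_INJ : Prop := ∀ (K : Type) [Field K] (n : ℕ) (φ : A K n →ₐ[K] A K n), JStar φ →
  ∀ (L : Type) [Field L] [Algebra K L] (r : ℕ) (X Y : Fin n → Matrix (Fin r) (Fin r) L),
    (∀ i, ev X (φ (x K i)) = ev Y (φ (x K i))) → X = Y

/-- JOB AX (from `S_INJ`). Ax-Grothendieck: Mathlib `ax_grothendieck_univ` (FieldTheory/AxGrothendieck),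
index type `Fin n × Fin r × Fin r`: the entries of `ev X (φ xᵢ)` are polynomials in the entries of `X`
(evaluate at the generic matrices over `MvPolynomial (Fin n × Fin r × Fin r) L`). -/
def S_AX : Prop := ∀ (K : Type) [Field K] (n : ℕ) (φ : A K n →ₐ[K] A K n), JStar φ → Sur φ

/-- JOB TR. Basic properties of `tr`. Proof. `tr i (a * b) = tr i a * b + ε(a) tr i b`, from the definition
(the `(0,0)` entry is `ε(a)`, the `(1,1)` entry is `a`, the `(1,0)` entry is `0`). (4): by (1) iterated,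
`a = Σ_{|u|<N} ε(trw u a) mon u + Σ_{|u|=N} mon u * trw u a`, and (5). -/
def S_TR : Prop := ∀ (K : Type) [Field K] (n : ℕ),
  (∀ a : A K n, a = algebraMap K _ (ep a) + ∑ i, x K i * tr i a) ∧
  (∀ (i : Fin n) (k : K), tr i (algebraMap K (A K n) k) = 0) ∧
  (∀ (i j : Fin n) (a : A K n), tr i (x K j * a) = if j = i then a else 0) ∧
  (∀ a : A K n, (∀ u, ep (trw u a) = 0) → a = 0) ∧
  (∀ a : A K n, ∃ N : ℕ, ∀ u : Wd n, N ≤ u.length → trw u a = 0) ∧
  (∀ (i : Fin n) (u : Wd n) (a : A K n), trw (u ++ [i]) a = tr i (trw u a))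

/-- JOB DLF (from `S_TR`). Proof: induction on `N`, with `dl (xᵢ * a) = Xᵢ dl(a) + Wᵢ ev Y a`,
`dl` linear, zero on constants, and `a = ε(a) + Σ xᵢ tr i a`. -/
def S_DLF : Prop := ∀ (K : Type) [Field K] (n : ℕ) (R : Type) [CommRing R] [Algebra K R] (r s : Type)
  [Fintype r] [DecidableEq r] [Fintype s] [DecidableEq s] (X : Fin n → Matrix r r R)
  (Y : Fin n → Matrix s s R) (W : Fin n → Matrix r s R) (a : A K n) (N : ℕ),
  (∀ u : Wd n, N ≤ u.length → trw u a = 0) →
  dl X Y W a = ∑ u ∈ wds n N, ∑ j, mo X u * W j * ev Y (tr j (trw u a))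

/-- JOB GEO. The inverse of `1 - Σ c_u u` for noncommuting coefficients and words. (Define `g` by one
recursion on the length and prove the other by strong induction: both sides are the sum of the
`c_{u_k} ⋯ c_{u_1}` over the factorisations `w = u_1 ⋯ u_k` into nonempty words.) Note that `c []` is not
used. -/
def S_GEO : Prop := ∀ (R : Type) [Ring R] (n : ℕ) (c : Wd n → R), ∃ g : Wd n → R, g [] = 1 ∧
  (∀ w, w ≠ [] → g w = ∑ k ∈ Finset.range w.length, c (w.drop k) * g (w.take k)) ∧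
  (∀ w, w ≠ [] → g w = ∑ k ∈ Finset.range w.length, g (w.drop (k + 1)) * c (w.take (k + 1)))

/-- JOB LEV (Levitzki's theorem over a division ring). Proof: induction on `dim V`. If all elements of `S`
are `0` the claim is clear. Otherwise let `a ∈ S`, `a ≠ 0`, have minimal rank. For `s ∈ S`, `a s a = 0`:
otherwise `rank (a s a) = rank a`, so `a s` is injective on the range of `a` and maps it onto itself, and is
not nilpotent. In the same way `a² = 0`. Let `U` be the span of `a V` and the `s a V`, `s ∈ S`. It is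
invariant, nonzero, and `a U = 0`, so `U ≠ V`. Use the claim for `U` and for `V / U`: a product of
`dim V` elements is a product of `dim U` elements (which kills `U`) times a product of `dim V/U` elements
(which maps `V` to `U`). -/
def S_LEV : Prop := ∀ (D : Type) [DivisionRing D] (V : Type) [AddCommGroup V] [Module D V]
  [FiniteDimensional D V] (S : Set (Module.End D V)), (∀ a ∈ S, ∀ b ∈ S, a * b ∈ S) →
  (∀ a ∈ S, IsNilpotent a) → ∀ l : List (Module.End D V), (∀ a ∈ l, a ∈ S) →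
    Module.finrank D V ≤ l.length → l.prod = 0

/-- JOB EIG. Linear algebra over an algebraically closed field. (If all roots of the characteristic
polynomial are `0` it is a power of `X`, and `T` is nilpotent.) -/
def S_EIG : Prop := ∀ (L : Type) [Field L] [IsAlgClosed L] (ι : Type) [Fintype ι] [DecidableEq ι]
  (T : Matrix ι ι L), ¬ IsNilpotent T → ∃ (μ : L) (v : ι → L), μ ≠ 0 ∧ v ≠ 0 ∧ v ᵥ* T = μ • v

/-- JOB PEN (from `S_LEV`). Proof. `M ↦ (v ↦ v ᵥ* M)` is an injective antihomomorphism from matrices over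
`D` to the `D`-linear endomorphisms of the left `D`-space `ι → D`, `ι = words × Fin p`, of dimension
`(wds n d).card * p` (`vecMul` is left linear). The products `(w.map (QM d c)).prod`, `w ≠ []`, are a
semigroup of nilpotents, so by `S_LEV` those with `|w| ≥ (wds n d).card * p` vanish (all such words, so also
their reversals). And for every word `w` the block of `((w.reverse).map (QM d c)).prod` at the position
`([], [])` is `g w` (`1 ≤ d` is needed for `[]` to be an index). For that compute the row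
`e_[] ᵥ* (w.reverse product)`: by induction on `w = i :: w'`, the blocks of row `[]` in the product for
`w` are: at column `u ≠ []`: `g (w.drop |u|)` if `u` is a prefix of `w`, otherwise `0` (for `|u| < d`); at
column `[]`: `g w`; the step is `(v QM_i)_{[]} = Σ_u v_u c(i :: u)`, `(v QM_i)_{i :: u} = v_u` and the
recursion (words longer than `d` have `c = 0`). -/
def S_PEN : Prop := ∀ (D : Type) [DivisionRing D] (n p d : ℕ) (c : Wd n → Matrix (Fin p) (Fin p) D),
  1 ≤ d → (∀ u, d < u.length → c u = 0) →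
  (∀ w : Wd n, w ≠ [] → IsNilpotent ((w.map (QM d c)).prod)) →
  ∀ g : Wd n → Matrix (Fin p) (Fin p) D, g [] = 1 →
  (∀ w, w ≠ [] → g w = ∑ k ∈ Finset.range w.length, g (w.drop (k + 1)) * c (w.take (k + 1))) →
  ∀ w, (wds n d).card * p ≤ w.length → g w = 0

/-- JOB REG (from `S_EIG`). Proof. Let `w = w_1 ⋯ w_r`, `r ≥ 1`, and `Π = Q_{w_1} ⋯ Q_{w_r}` not nilpotent
(`Q_i = QM d c i`). Flatten (`Matrix.comp`): by `S_EIG` there are a row vector `ζ ≠ 0` (a function of
`(u, a) ∈ words × Fin p` with values in rows `Fin ℓ → L`) and `μ ≠ 0` with `ζ Π = μ ζ`. Put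
`v^(s) = ζ Q_{w_1} ⋯ Q_{w_s}` for `0 ≤ s < r` and let `X_i ∈ M_r(L)` have the entries `(s, s-1) = 1` if `w_s = i`
for `1 ≤ s < r`, and `(0, r-1) = μ⁻¹` if `w_r = i`. Then `v^(s) = Σ_i Σ_s' (X_i)_{s s'} v^(s') Q_i` for all `s`.
Write `v_u` (`r × ℓ` matrices indexed by `Fin p`, row `s` is `v^(s)_u`): this says
`v_{i :: u} = X_i v_u` and `v_[] = Σ_{i,u} X_i (v_u c_{i u})`; so `v_u = X^u v_[]` and `W = v_[]` satisfies the
equation of the hypothesis, `W = 0`, `v = 0`, `ζ = 0`, a contradiction. (If `r = 1` the only entry is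
`(0,0) = μ⁻¹` for `i = w_1`.) -/
def S_REG : Prop := ∀ (L : Type) [Field L] [IsAlgClosed L] (n p ℓ d : ℕ)
  (c : Wd n → Matrix (Fin p) (Fin p) (Matrix (Fin ℓ) (Fin ℓ) L)), 1 ≤ d →
  (∀ u, d < u.length → c u = 0) →
  (∀ (r : ℕ) (X : Fin n → Matrix (Fin r) (Fin r) L) (W : Fin p → Matrix (Fin r) (Fin ℓ) L),
    (∀ b, W b = ∑ u ∈ (wds n (d + 1)).erase [], ∑ a, mo X u * W a * c u a b) → ∀ b, W b = 0) →
  ∀ w : Wd n, w ≠ [] → IsNilpotent ((w.map (QM d c)).prod)

/-- JOB DIV. Division rings inside matrix rings over fields, with few identities. Proof. Let `ℓ` be larger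
than the degree of `a`, `F` the field of fractions of `MvPolynomial (Fin n × ZMod ℓ) K`, `σ` its
automorphism with `s_(j,k) ↦ s_(j,k+1)` (`σ^ℓ = 1`), `E = LaurentSeries F` in the variable `τ`, with
`σ` acting on the coefficients. In the `ℓ × ℓ` matrices over `E` let `ρ(e) = diag(e, σ e, …, σ^(ℓ-1) e)` and
let `Π` have the entries `(k, k+1) = 1` for `k < ℓ-1` and `(ℓ-1, 0) = τ`. Then `Π ρ(e) = ρ(σ e) Π` and
`Π^ℓ = τ`. So `D = {Σ_{k<ℓ} ρ(e_k) Π^k}` is a subring (containing `K`). Every nonzero `M ∈ D` is an invertible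
matrix: multiply by a power of the central `τ` such that all `e_k` are power series and not all have
`e_k(0) = 0`; let `k₀` be minimal with `e_{k₀}(0) ≠ 0`; `M Π^(-k₀) = Σ_{k ≥ k₀} ρ(e_k) Π^(k-k₀) +
Σ_{k<k₀} ρ(e_k / τ) Π^(ℓ+k-k₀)` is over power series, and mod `τ` it is upper triangular with nonzero
diagonal. So right multiplication by `M` on the `E`-space `D` (`E` acts through `ρ`, of dimension `ℓ`) is
injective, hence surjective, and `M` is invertible in `D`. `Y_j = ρ(s_(j,0)) Π`: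
`Y_{j_1} ⋯ Y_{j_r} = ρ(s_(j_1,0) s_(j_2,1) ⋯ s_(j_r,r-1)) Π^r`, so the `ρ`-coefficient of `Π^r`, `r < ℓ`, in
`a(Y)` is `Σ_{|w|=r} a[w] s_(w_1,0) ⋯ s_(w_r,r-1)`, a sum of different monomials, not `0` for `r` = a degree
which occurs in `a`. (Any other construction is fine; `j` is automatically injective.) -/
def S_DIV : Prop := ∀ (K : Type) [Field K] (n : ℕ) (a : A K n), a ≠ 0 →
  ∃ (D : Type) (_ : DivisionRing D) (_ : Algebra K D) (E : Type) (_ : Field E) (_ : Algebra K E)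
    (ℓ : ℕ) (_ : D →ₐ[K] Matrix (Fin ℓ) (Fin ℓ) E) (Y : Fin n → D), 0 < ℓ ∧ ev Y a ≠ 0

/-- JOB H0 (from `S_TR`, `S_DLF`, `S_GEO`, `S_PEN`, `S_REG`). Proof. `H_[]` is
`Σ_v h_v mon v`, `h_v ∈ M_n(K)`, `(h_v)_{ji} = ε(trw v (H_[])_{ji})`. `JStar` with `X = 0`, `r = Fin 1` and
`S_DLF`: for `Y ∈ M_N(L)`, `W ∈ (L^(1×N))^n`: `Σ_j W_j ev Y (H_[])_{ji} = 0` for all `i` implies `W = 0`. With
`N = 1`, `Y = 0`: `h_[]` is invertible. Put `c'_v = - h_v h_[]⁻¹`, `c_u = c'_{u.reverse}` (matrices over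
`K`, or over `M_1(L)`). `L` = algebraic closure of `K`: the hypothesis of `S_REG` (`ℓ = 1`) for `c` and `X` is the
above for `Y = Xᵀ`, transposed (`mo Xᵀ v = (mo X v.reverse)ᵀ`). So the products of the `QM d c i` are nilpotent over
`M_1(L)`, so over `K` (injective ring homomorphism), and by `S_PEN` (`D = K`) the `g` of `S_GEO` vanishes on
long words. Then `Σ_w g_{w.reverse} mon w` (finite sum) is a right inverse of `1 - Σ_{v ≠ []} c'_v mon v = H_[] h_[]⁻¹`
by the first recursion (`c'_v g_u` for the word `v u`; reversed: `c(z.drop k) g(z.take k)`), and a left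
inverse by the second. -/
def S_H0 : Prop := ∀ (K : Type) [Field K] (n : ℕ) (φ : A K n →ₐ[K] A K n), JStar φ →
  ∃ G0 : Matrix (Fin n) (Fin n) (A K n), Hm φ [] * G0 = 1 ∧ G0 * Hm φ [] = 1

/-- the Jacobian has an inverse with polynomial entries -/
def HasInv {K : Type} [Field K] {n : ℕ} (φ : A K n →ₐ[K] A K n) : Prop :=
  ∃ (C : ℕ) (G : Wd n → Matrix (Fin n) (Fin n) (A K n)), (∀ w, C ≤ w.length → G w = 0) ∧
    ∀ w, ∑ k ∈ Finset.range (w.length + 1), Hm φ (w.drop k) * G (w.take k) = if w = [] then 1 else 0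

/-- JOB INV (from `S_TR`, `S_DLF`, `S_GEO`, `S_PEN`, `S_REG`, `S_DIV`, `S_H0`). Proof. `G0 = H_[]⁻¹` (`S_H0`),
`c_u = - H_u G0 ∈ M_n(A)`, `g` from `S_GEO` (ring `M_n(A)`), `G_w = G0 * g_w`; the identity is the
first recursion. `d ≥ 1` with `H_u = 0` for `|u| > d`. Claim `g_w = 0` for `|w| ≥ C = (wds n d).card * n`.
Otherwise an entry `a` of `g_w` is not `0`; `S_DIV` gives `D, E, ℓ, j, Y` with `ev Y a ≠ 0`. Map `c`, `g` to
`M_n(D)` by `ev Y` (ring homomorphism, `RingHom.mapMatrix`, so the recursion holds), and on to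
`M_n(M_ℓ(L))`, `L` = algebraic closure of `E`, by `j`. Hypothesis of `S_REG`: `W_b = Σ_u Σ_a X^u W_a (c_u)_{ab}(jY)`, multiply
on the right by `H_[]`: `Σ_{|u| ≤ d} Σ_j X^u W_j (H_u)_{ji}(jY) = 0` for all `i`, this is
`dl X (jY) W (φ xᵢ) = 0` by `S_DLF`, so `W = 0` by `JStar`. `S_REG`: the products of the `QM` are nilpotent over
`M_ℓ(L)`, so over `D` (`D → M_ℓ(L)` is injective). `S_PEN`: `g_w(Y) = 0`, a contradiction. -/
def S_INV : Prop := ∀ (K : Type) [Field K] (n : ℕ) (φ : A K n →ₐ[K] A K n), JStar φ → HasInv φ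

/-- a finite dimensional space `V` with `xᵢ ∈ V ⊆ K + Σ (fᵢ - ε(fᵢ)) V` -/
def HasV {K : Type} [Field K] {n : ℕ} (φ : A K n →ₐ[K] A K n) : Prop :=
  ∃ V : Submodule K (A K n), FiniteDimensional K V ∧ (∀ i, x K i ∈ V) ∧
    ∀ a ∈ V, ∃ b : Fin n → A K n, (∀ i, b i ∈ V) ∧
      a = algebraMap K _ (ep a) + ∑ i, (φ (x K i) - algebraMap K _ (ep (φ (x K i)))) * b i

/-- JOB VSP (from `S_TR`). Proof. `fᵢ = φ xᵢ`, `fᵢ' = fᵢ - ε(fᵢ) = Σ_j x_j tr_j fᵢ`. Since
`tr j ∘ trw u = trw (u ++ [j])`, the identity of `HasInv` says, for a word `w' = w ++ [j] ≠ []` and all `l`: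
(E) `Σ_{k<|w'|} Σᵢ trw (w'.drop k) fᵢ * G(w'.take k)_{il} = 1` if `w' = [l]`, `0` otherwise. Multiply the
identity of `HasInv` (row `j`) by `x_j` from the left and sum: for `w ≠ []`
`Σ_{k≤|w|} Σᵢ (trw (w.drop k) fᵢ - ε(trw (w.drop k) fᵢ)) G(w.take k)_{il} = 0`, so with (E)
(F) `Σᵢ fᵢ' G(w)_{il} = Σ_{k<|w|} Σᵢ ε(trw (w.drop k) fᵢ) G(w.take k)_{il} - [w = [l]]` for `w ≠ []`, and
`Σᵢ fᵢ' G([])_{il} = x_l`. Let `V₀` be the span of all `G(w)_{il}` (finite dimensional), `U` the space of the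
`k + Σ fᵢ' bᵢ`, `k ∈ K`, `bᵢ ∈ V₀`. `G(w₀)_{il} ∈ U` by induction on `|w₀|`: in (F) for `w = w₀ ++ [m]` the
term `k = |w₀|` is `Σᵢ Λ_{mi} G(w₀)_{il}`, `Λ_{mi} = ε(tr m fᵢ)`, the other terms on the right are in `U`; `Λ` is
invertible over `K` (`ε` of the identity of `HasInv` for `w = []`). So `V₀ ⊆ U` and `V = V₀ + span xᵢ`. The
constant is `ε(a)` as `ε(fᵢ') = 0`. -/
def S_VSP : Prop := ∀ (K : Type) [Field K] (n : ℕ) (φ : A K n →ₐ[K] A K n), HasInv φ → HasV φ

/-- JOB END (from `S_TR`, `S_LEV`, `S_EIG`). Proof. Choose a basis of `V` and so linear maps `τᵢ : V → V` with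
`a = ε(a) + Σ fᵢ' τᵢ(a)`; `τ_v = τ_{v_k} ∘ ⋯ ∘ τ_{v_1}` for `v = v_1 ⋯ v_k`. Then
(1) `a = Σ_{|v|<k} ε(τ_v a) f'^v + Σ_{|v|=k} f'^v τ_v a`. So it is enough that `τ_v = 0` for long words, and by `S_LEV`
that `τ_w` is nilpotent for all `w ≠ []`. Suppose `τ_w` is not nilpotent, `w = w_1 ⋯ w_r`. The functionals
`λ_v(a) = ε(τ_v a)` separate the points of `V` (by (1), if all vanish then `a` has no terms of
degree `< k`, as `fᵢ'` has no constant term, so all coefficients of `a` vanish), so they span the dual. Over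
`L` = algebraic closure of `K` let `b ∈ L ⊗ V`, `b ≠ 0`, `τ_w b = μ b`, `μ ≠ 0` (`S_EIG`; or work with coordinate vectors); there
is a word `v = v_1 ⋯ v_p` with `λ_v(b) ≠ 0`. Nodes `0, …, r-1` and `e_1, …, e_p`; put `end = e_p`, or `end = 0` if `p = 0`.
`T_i` = sum of the matrix units for the edges with label `i`: edges `s → s+1` (label `w_(s+1)`, `s < r-1`),
`r-1 → 0` (label `w_r`, weight `μ⁻¹`), `0 → e_1` (label `v_1`), `e_s → e_(s+1)` (label `v_(s+1)`). By `Sur` there is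
`X` with `ev X fᵢ' = Tᵢ` (that is `ev X fᵢ = Tᵢ + ε(fᵢ)`). For a node `s` let `β_s(a) = (ev X a)_{s,end}`. The relation
`a = ε(a) + Σ fᵢ' τᵢ(a)` gives `β_s(a) = ε(a) [s = end] + Σ_{i,s'} (Tᵢ)_{s s'} β_s'(τᵢ a)`, so
`β_0(a) = μ⁻¹ β_0(τ_w a) + ε(τ_v a)` for `a ∈ V`, and the same for `L ⊗ V`. With `a = b`: `λ_v(b) = 0`, a
contradiction. -/
def S_END : Prop := ∀ (K : Type) [Field K] (n : ℕ) (φ : A K n →ₐ[K] A K n), HasV φ → Sur φ →
  ∀ i, x K i ∈ φ.range

/-- MAIN (helper38). Injectivity of `φ`: if `φ a = 0`, then `ev T a = 0` for all matrices `T` over an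
algebraically closed field by `Sur`, so `a = 0`. -/
def S_MAIN : Prop := ∀ (K : Type) [Field K] (n : ℕ) (φ : A K n →ₐ[K] A K n), Good φ →
  Function.Bijective φ

end Q38.GE
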